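import Pool.Agent.U41.OD.Stm

/-! Project OD, package B: the local rings of the intermediate charts. -/

set_option autoImplicit false
set_option linter.unusedSectionVars false
set_option linter.unusedVariables false

open scoped Pointwise

namespace Pool.Agent.U41.OD

open Pool.Agent.H918R2.Quad Pool.Agent.H945R2.E Pool.Agent.W418 Pool.Agent.TH214.RM MvPolynomial

theorem B_ok (hEB : S_EB) (hRC : S_RC) : S_B := by
  intro R F σ _ _ _ _ _ _ _ π k i g y v t w m 𝒪 hπ hnode hik hloc hR hRU hrel hind hinj htw hym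
    hyv hvm ht𝒪 hw𝒪 hv𝒪 hwU hymU hfracO
  classical
  obtain ⟨B, _, _, tB, wB, hBd, hBr, htwB, hBinj, htB0, hwB0, hadj, huniv⟩ := hRC π hπ
  obtain ⟨φ, hφt, hφw⟩ := huniv F t w htw
  obtain ⟨E0, T₁, T₂, hE0g, hE0⟩ := hEB (B := B) π k i g tB wB hnode hik htwB
  obtain ⟨lam, hlam⟩ : ∃ lam : B, lam = tB ^ (i + 1) * wB ^ i := ⟨_, rfl⟩
  rw [← hlam] at hE0g hE0
  have hlamt : lam = algebraMap R B (π ^ i) * tB := by
    rw [hlam, map_pow, ← htwB, mul_pow]; ring
  have hlamw : lam * wB = algebraMap R B (π ^ (i + 1)) := by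
    rw [hlam, map_pow, ← htwB, mul_pow]; ring
  have hπ0 : π ≠ 0 := hπ.ne_zero
  have hφlam : φ lam = y m := by
    rw [hlamt, map_mul, AlgHom.commutes, hφt, hym, map_pow]
  obtain ⟨u, hu, hconst⟩ := hnode.const
  have hconst0 : constantCoeff g ≠ 0 := by
    rw [hconst]
    exact mul_ne_zero (pow_ne_zero _ hπ0) hu.ne_zero
  have hg0 : g ≠ 0 := by
    rintro rfl
    exact hconst0 (map_zero _)
  have hym0 : y m ≠ 0 := by
    intro h0
    have h1 : y = 0 := by
      funext l
      rw [hyv l, h0, zero_mul]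
      rfl
    rw [h1] at hrel
    have h2 : aeval (0 : σ → F) g = algebraMap R F (constantCoeff g) := by
      rw [aeval_zero]
    rw [h2] at hrel
    exact hconst0 (hinj (by rw [hrel, map_zero]))
  let : Algebra B F := (φ : B →+* F).toAlgebra
  have : IsScalarTower R B F := IsScalarTower.of_algebraMap_eq (fun r => (φ.commutes r).symm)
  have hBF : ∀ b : B, algebraMap B F b = φ b := fun b => rfl
  let W := MvPolynomial {j : σ // j ≠ m} B
  let eB : W →ₐ[B] F := aeval (fun j : {j : σ // j ≠ m} => v j)
  let eW : W →ₐ[R] F := eB.restrictScalars R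
  have heB : ∀ z, eW z = eB z := fun z => rfl
  have heC : ∀ b : B, eW (C b) = φ b := by
    intro b
    rw [heB]
    exact aeval_C _ b
  have heX : ∀ j, eW (X j) = v j := fun j => aeval_X _ j
  have hetau : ∀ j, eW (tau m j) = v j := fun j => aeval_tau' m v hvm j
  have hφ𝒪 : ∀ b : B, φ b ∈ 𝒪 := by
    intro b
    induction hadj b using Algebra.adjoin_induction with
    | mem x hx =>
      simp only [Set.mem_insert_iff, Set.mem_singleton_iff] at hx
      rcases hx with rfl | rfl
      · rw [hφt]; exact ht𝒪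
      · rw [hφw]; exact hw𝒪
    | algebraMap r => rw [AlgHom.commutes]; exact hR r
    | add a b _ _ ha hb => rw [map_add]; exact 𝒪.add_mem ha hb
    | mul a b _ _ ha hb => rw [map_mul]; exact 𝒪.mul_mem ha hb
  have heW : ∀ z, eW z ∈ 𝒪 := by
    intro z
    induction z using MvPolynomial.induction_on with
    | C b => rw [heC]; exact hφ𝒪 b
    | add p q hp hq => rw [map_add]; exact 𝒪.add_mem hp hq
    | mul_X p j hp => rw [map_mul, heX]; exact 𝒪.mul_mem hp (hv𝒪 _)
  let E : W := deh m E0
  let sub : MvPolynomial σ B →ₐ[B] W := aeval (tau m)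
  have hsubE : sub E0 = E := rfl
  have hsubX : ∀ l, sub (X l) = tau m l := fun l => aeval_X _ l
  have hsubC : ∀ b : B, sub (C b) = C b := fun b => aeval_C _ b
  let Y : σ → W := fun l => C lam * tau m l
  have hYg : ∀ p : MvPolynomial σ R, aeval Y p =
      sub (aeval (fun l => C lam * X l : σ → MvPolynomial σ B) p) := by
    intro p
    have h1 : (aeval Y : MvPolynomial σ R →ₐ[R] W) = (sub.restrictScalars R).comp
        (aeval (fun l => C lam * X l : σ → MvPolynomial σ B)) := by
      apply MvPolynomial.algHom_ext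
      intro l
      rw [AlgHom.comp_apply, aeval_X, aeval_X]
      change C lam * tau m l = sub (C lam * X l)
      rw [map_mul sub, hsubX, hsubC]
    rw [h1]
    rfl
  have hYgE : aeval Y g = C (lam ^ 2) * E := by
    rw [hYg, hE0g, map_mul sub, hsubC, hsubE]
  have heY : ∀ l, eW (Y l) = y l := by
    intro l
    change eW (C lam * tau m l) = y l
    rw [map_mul, heC, hetau, hφlam, ← hyv]
  have heYa : ∀ p : MvPolynomial σ R, eW (aeval Y p) = aeval y p := by
    intro p
    have h1 : (aeval y : MvPolynomial σ R →ₐ[R] F) = eW.comp (aeval Y) := by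
      apply MvPolynomial.algHom_ext
      intro l
      rw [AlgHom.comp_apply, aeval_X, aeval_X, heY]
    rw [h1]
    rfl
  have hE : eW E = 0 := by
    have h1 := heYa g
    rw [hrel, hYgE, map_mul, heC, map_pow, hφlam] at h1
    exact (mul_eq_zero.1 h1).resolve_left (pow_ne_zero 2 hym0)
  let I : Ideal W := Ideal.span {E}
  have hI : ∀ z ∈ I, eW z = 0 := by
    intro z hz
    obtain ⟨c, rfl⟩ := Ideal.mem_span_singleton.1 hz
    rw [map_mul, hE, zero_mul]
  obtain ⟨A, _, _, pr, hpr, hprk, hpr0⟩ := exists_quot (R := R) I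
  have hrange : Algebra.adjoin R (insert t (insert w (Set.range v))) ≤ eW.range := by
    rw [Algebra.adjoin_le_iff]
    intro x hx
    rw [SetLike.mem_coe, AlgHom.mem_range]
    rcases hx with rfl | rfl | ⟨l, rfl⟩
    · exact ⟨C tB, by rw [heC, hφt]⟩
    · exact ⟨C wB, by rw [heC, hφw]⟩
    · exact ⟨tau m l, hetau l⟩
  have hfrac : ∀ x ∈ 𝒪, ∃ a b : W, eW b ≠ 0 ∧ (eW b)⁻¹ ∈ 𝒪 ∧ x = eW a / eW b := by
    intro x hx
    obtain ⟨a, ha, b, hb, hbU, hxab⟩ := hfracO x hx
    obtain ⟨a', rfl⟩ := (AlgHom.mem_range _).1 (hrange ha)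
    obtain ⟨b', rfl⟩ := (AlgHom.mem_range _).1 (hrange hb)
    exact ⟨a', b', hbU.1, hbU.2.2, hxab⟩
  obtain ⟨j₀, hj₀⟩ := hind
  refine regular_of_pres 𝒪 hloc pr hpr eW ?_ heW hfrac ?_ Y g hg0 ?_ j₀ ?_ ?_
  · intro z hz
    exact hI z ((hpr0 z).1 hz)
  · intro q hq hqm
    have hEq : pr E = 0 := (hpr0 E).2 (Ideal.mem_span_singleton_self _)
    let Q : Ideal W := q.comap (pr : W →+* A)
    have hQmem : ∀ z, z ∈ Q ↔ ¬ U 𝒪 (eW z) := fun z => hqm z
    have hQtop : (1 : W) ∉ Q := by
      intro h1
      rw [hQmem, map_one] at h1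
      exact h1 ⟨one_ne_zero, 𝒪.one_mem, by rw [inv_one]; exact 𝒪.one_mem⟩
    have hEQ : E ∈ Q := by
      change pr E ∈ q
      rw [hEq]
      exact q.zero_mem
    have hwQ : (C wB : W) ∈ Q := by
      rw [hQmem, heC, hφw]; exact hwU
    have hlQ : (C lam : W) ∈ Q := by
      rw [hQmem, heC, hφlam]; exact hymU
    by_cases hex : ∃ j, pderiv j E ∉ Q
    · obtain ⟨j, hj⟩ := hex
      exact Pool.Agent.H918R2.Quad.regular_of_pderiv (R := B) E (pr : W →+* A) hpr hprk q j hj
    · exfalso
      push Not at hex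
      set g2 : MvPolynomial σ B := map (algebraMap R B) (homogeneousComponent 2 g) with hg2
      have hdehC : ∀ b : B, deh m (C b : MvPolynomial σ B) = C b := by
        intro b
        unfold deh
        rw [aeval_C]
        rfl
      have hdehadd : ∀ p q : MvPolynomial σ B, deh m (p + q) = deh m p + deh m q :=
        fun p q => map_add _ _ _
      have hG2 : deh m g2 ∈ Q := by
        have h1 : E = deh m g2 + C wB * deh m T₁ + C lam * deh m T₂ := by
          change deh m E0 = _
          rw [hE0, hdehadd, hdehadd, deh_hom, deh_hom, hdehC, hdehC]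
        have h2 : deh m g2 = E - C wB * deh m T₁ - C lam * deh m T₂ := by
          rw [h1]; ring
        rw [h2]
        exact Q.sub_mem (Q.sub_mem hEQ (Q.mul_mem_right _ hwQ)) (Q.mul_mem_right _ hlQ)
      have hD2 : ∀ j : {j : σ // j ≠ m}, pderiv j (deh m g2) ∈ Q := by
        intro j
        have h1 : pderiv j E = pderiv j (deh m g2) + C wB * pderiv j (deh m T₁) +
            C lam * pderiv j (deh m T₂) := by
          have h3 : E = deh m g2 + C wB * deh m T₁ + C lam * deh m T₂ := by
            change deh m E0 = _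
            rw [hE0, hdehadd, hdehadd, deh_hom, deh_hom, hdehC, hdehC]
          rw [h3, map_add, map_add, pderiv_C_mul, pderiv_C_mul]
        have h2 : pderiv j (deh m g2) = pderiv j E - C wB * pderiv j (deh m T₁) -
            C lam * pderiv j (deh m T₂) := by
          rw [h1]; ring
        rw [h2]
        exact Q.sub_mem (Q.sub_mem (hex j) (Q.mul_mem_right _ hwQ)) (Q.mul_mem_right _ hlQ)
      have hhom : g2.IsHomogeneous 2 :=
        (homogeneousComponent_isHomogeneous 2 g).map _
      have hall := all_pderiv_mem g2 2 hhom m Q hG2 hD2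
      have hle : Ideal.span (Set.range fun j => pderiv j (homogeneousComponent 2 g)) ≤
          Q.comap (((sub : MvPolynomial σ B →+* W)).comp
            (map (algebraMap R B) : MvPolynomial σ R →+* MvPolynomial σ B)) := by
        rw [Ideal.span_le]
        rintro _ ⟨j, rfl⟩
        change sub (map (algebraMap R B) (pderiv j (homogeneousComponent 2 g))) ∈ Q
        have h1 := hall j
        rw [hg2, pderiv_map] at h1
        exact h1
      have h1 := hle (hnode.quad m)
      have h2 : sub (map (algebraMap R B) (X m)) ∈ Q := h1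
      rw [map_X, hsubX] at h2
      have h3 : (tau m m : W) = 1 := by
        unfold tau
        rw [dif_pos rfl]
      rw [h3] at h2
      exact hQtop h2
  · rw [hYgE, hpr0]
    exact I.mul_mem_left _ (Ideal.mem_span_singleton_self _)
  · convert hj₀ using 2 with j
    exact heY _
  · have hYm : Y m = C lam := by
      change C lam * tau m m = C lam
      unfold tau
      rw [dif_pos rfl, mul_one]
    have hYl : ∀ j : {j : σ // j ≠ m}, Y j = C lam * X j := by
      intro j
      change C lam * tau m (j : σ) = C lam * X j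
      unfold tau
      rw [dif_neg j.2]
    have hYalg : ∀ r : R, aeval Y (C r) = C (algebraMap R B r) := by
      intro r
      rw [aeval_C]
      rfl
    -- closure of the set of good elements
    have hadd : ∀ a b : W, (∃ p p' : MvPolynomial σ R, eW (aeval Y p') ≠ 0 ∧
        pr (aeval Y p' * a) = pr (aeval Y p)) → (∃ p p' : MvPolynomial σ R, eW (aeval Y p') ≠ 0 ∧
        pr (aeval Y p' * b) = pr (aeval Y p)) → ∃ p p' : MvPolynomial σ R, eW (aeval Y p') ≠ 0 ∧
        pr (aeval Y p' * (a + b)) = pr (aeval Y p) := by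
      rintro a b ⟨p, p', h1, h2⟩ ⟨r, r', h3, h4⟩
      refine ⟨p * r' + p' * r, p' * r', ?_, ?_⟩
      · rw [map_mul, map_mul]; exact mul_ne_zero h1 h3
      · simp only [map_add, map_mul] at h2 h4 ⊢
        linear_combination pr (aeval Y r') * h2 + pr (aeval Y p') * h4
    have hmul : ∀ a b : W, (∃ p p' : MvPolynomial σ R, eW (aeval Y p') ≠ 0 ∧
        pr (aeval Y p' * a) = pr (aeval Y p)) → (∃ p p' : MvPolynomial σ R, eW (aeval Y p') ≠ 0 ∧
        pr (aeval Y p' * b) = pr (aeval Y p)) → ∃ p p' : MvPolynomial σ R, eW (aeval Y p') ≠ 0 ∧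
        pr (aeval Y p' * (a * b)) = pr (aeval Y p) := by
      rintro a b ⟨p, p', h1, h2⟩ ⟨r, r', h3, h4⟩
      refine ⟨p * r, p' * r', ?_, ?_⟩
      · rw [map_mul, map_mul]; exact mul_ne_zero h1 h3
      · simp only [map_mul] at h2 h4 ⊢
        linear_combination pr (aeval Y r') * pr b * h2 + pr (aeval Y p) * h4
    have hC : ∀ b : B, ∃ p p' : MvPolynomial σ R, eW (aeval Y p') ≠ 0 ∧
        pr (aeval Y p' * C b) = pr (aeval Y p) := by
      intro b
      induction hadj b using Algebra.adjoin_induction with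
      | mem x hx =>
        simp only [Set.mem_insert_iff, Set.mem_singleton_iff] at hx
        rcases hx with rfl | rfl
        · refine ⟨X m, C (π ^ i), ?_, ?_⟩
          · rw [hYalg, heC, AlgHom.commutes, Ne, map_eq_zero_iff _ hinj]
            exact pow_ne_zero _ hπ0
          · rw [hYalg, aeval_X, hYm, ← C_mul, ← hlamt]
        · refine ⟨C (π ^ (i + 1)), X m, ?_, ?_⟩
          · rw [aeval_X, heY]
            exact hym0
          · rw [aeval_X, hYm, hYalg, ← C_mul, hlamw]
      | algebraMap r =>
        refine ⟨C r, 1, ?_, ?_⟩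
        · rw [map_one, map_one]; exact one_ne_zero
        · rw [map_one, one_mul, hYalg]
      | add a b _ _ ha hb =>
        rw [C_add]
        exact hadd _ _ ha hb
      | mul a b _ _ ha hb =>
        rw [C_mul]
        exact hmul _ _ ha hb
    intro z
    induction z using MvPolynomial.induction_on with
    | C b => exact hC b
    | add a b ha hb => exact hadd _ _ ha hb
    | mul_X a j ha =>
      refine hmul _ _ ha ⟨X j, X m, ?_, ?_⟩
      · rw [aeval_X, heY]
        exact hym0
      · rw [aeval_X, aeval_X, hYm, hYl]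

end Pool.Agent.U41.OD
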